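import Mathlib

/-!
# The parity predicate
-/

namespace H599.PH

/-- `x` has an odd number of ones. -/
def OddPar (n : ℕ) (x : Fin n → Bool) : Prop := Odd (Finset.univ.filter fun i => x i = true).card

end H599.PH
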