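import Pool.Agent.H599R2.PH.Fin
import Pool.Agent.H599R2.QB.QFml
import Pool.Agent.H599R2.PH.Defs2

/-!
# Alternations versus size for parity
-/

namespace H599.PH

open Finset H599.QB
open Pool.Agent.H564R2.QF (Fml)

theorem fml_dep {V : Type} [DecidableEq V] (φ : Fml V) : ∃ S : Finset V, S.card ≤ φ.size ∧
    ∀ x x' : V → Bool, (∀ i ∈ S, x i = x' i) → φ.eval x = φ.eval x' := by
  induction φ with
  | const b => exact ⟨∅, by simp, fun _ _ _ => rfl⟩
  | var v => exact ⟨{v}, by simp [Fml.size], fun x x' h => h v (by simp)⟩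
  | neg φ ih =>
    obtain ⟨S, h1, h2⟩ := ih
    refine ⟨S, h1, fun x x' h => ?_⟩
    change (!φ.eval x) = !φ.eval x'
    rw [h2 x x' h]
  | and φ ψ ih1 ih2 =>
    obtain ⟨S, h1, h2⟩ := ih1
    obtain ⟨T, h3, h4⟩ := ih2
    refine ⟨S ∪ T, (Finset.card_union_le _ _).trans (Nat.add_le_add h1 h3), fun x x' h => ?_⟩
    change (φ.eval x && ψ.eval x) = (φ.eval x' && ψ.eval x')
    rw [h2 x x' fun i hi => h i (Finset.mem_union_left _ hi),
      h4 x x' fun i hi => h i (Finset.mem_union_right _ hi)]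
  | or φ ψ ih1 ih2 =>
    obtain ⟨S, h1, h2⟩ := ih1
    obtain ⟨T, h3, h4⟩ := ih2
    refine ⟨S ∪ T, (Finset.card_union_le _ _).trans (Nat.add_le_add h1 h3), fun x x' h => ?_⟩
    change (φ.eval x || ψ.eval x) = (φ.eval x' || ψ.eval x')
    rw [h2 x x' fun i hi => h i (Finset.mem_union_left _ hi),
      h4 x x' fun i hi => h i (Finset.mem_union_right _ hi)]

theorem Sig.dep {e : Bool} {k m s n : ℕ} {f : (Fin n → Bool) → Prop} (hf : f ∈ Sig e k m s n) :
    ∃ S : Finset (Fin n), S.card ≤ s ∧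
      ∀ x x' : Fin n → Bool, (∀ i ∈ S, x i = x' i) → (f x ↔ f x') := by
  induction k generalizing e n f with
  | zero =>
    have hf' : ∃ φ : Fml (Fin n), φ.size ≤ s ∧ ∀ x, f x ↔ φ.eval x = true := by
      cases e <;> exact hf
    obtain ⟨φ, h1, h2⟩ := hf'
    obtain ⟨S, h3, h4⟩ := fml_dep φ
    exact ⟨S, h3.trans h1, fun x x' h => by rw [h2, h2, h4 x x' h]⟩
  | succ k ih =>
    have key : ∀ (S : Finset (Fin (n + m))) (x x' : Fin n → Bool) (y : Fin m → Bool),
        (∀ i ∈ Finset.univ.filter (fun i : Fin n => Fin.castAdd m i ∈ S), x i = x' i) →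
        ∀ v ∈ S, Fin.append x y v = Fin.append x' y v := by
      intro S x x' y h v
      refine Fin.addCases (fun i hi => ?_) (fun i _ => ?_) v
      · rw [Fin.append_left, Fin.append_left]
        exact h i (Finset.mem_filter.2 ⟨Finset.mem_univ _, hi⟩)
      · rw [Fin.append_right, Fin.append_right]
    have hc : ∀ S : Finset (Fin (n + m)),
        (Finset.univ.filter (fun i : Fin n => Fin.castAdd m i ∈ S)).card ≤ S.card := by
      intro S
      refine Finset.card_le_card_of_injOn (Fin.castAdd m) (fun i hi => ?_)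
        (fun i _ j _ h => Fin.castAdd_injective n m h)
      exact (Finset.mem_filter.1 (Finset.mem_coe.1 hi)).2
    cases e with
    | true =>
      obtain ⟨g, hg, hg'⟩ := hf
      obtain ⟨S, h1, h2⟩ := ih hg
      refine ⟨_, (hc S).trans h1, fun x x' h => ?_⟩
      rw [hg', hg']
      exact exists_congr fun y => h2 _ _ (key S x x' y h)
    | false =>
      obtain ⟨g, hg, hg'⟩ := hf
      obtain ⟨S, h1, h2⟩ := ih hg
      refine ⟨_, (hc S).trans h1, fun x x' h => ?_⟩
      rw [hg', hg']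
      exact forall_congr' fun y => h2 _ _ (key S x x' y h)

theorem odd_dep {e : Bool} {k m s n : ℕ} (h : OddPar n ∈ Sig e k m s n) : n ≤ s := by
  by_contra hcon
  obtain ⟨S, h1, h2⟩ := Sig.dep h
  have : ∃ i : Fin n, i ∉ S := by
    by_contra hall
    push Not at hall
    have : S = Finset.univ := Finset.eq_univ_iff_forall.2 hall
    rw [this, Finset.card_univ, Fintype.card_fin] at h1
    omega
  obtain ⟨i, hi⟩ := this
  have h3 := h2 (fun _ => false) (fun j => decide (j = i)) fun j hj => by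
    have : j ≠ i := fun h => hi (h ▸ hj)
    simp [this]
  unfold OddPar at h3
  have e1 : (Finset.univ.filter fun j : Fin n => (false : Bool) = true).card = 0 := by simp
  have e2 : (Finset.univ.filter fun j : Fin n => decide (j = i) = true).card = 1 := by
    have : (Finset.univ.filter fun j : Fin n => decide (j = i) = true) = {i} := by
      ext j; simp
    rw [this, Finset.card_singleton]
  rw [e1, e2] at h3
  exact absurd (h3.2 odd_one) (by decide)

theorem even_of_odd {e : Bool} {k m s n : ℕ} (h : OddPar n ∈ Sig e k m s n) :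
    (fun x : Fin n → Bool => ∑ i ∈ (Finset.univ : Finset (Fin n)), bz (x i) = 0)
      ∈ Sig (!e) k m s n := by
  have h1 := Sig.compl h
  have h2 : (fun x : Fin n → Bool => ¬ OddPar n x)
      = fun x : Fin n → Bool => ∑ i ∈ (Finset.univ : Finset (Fin n)), bz (x i) = 0 := by
    funext x
    unfold OddPar
    rw [odd_iff_sum]
    generalize ∑ i, bz (x i) = t
    revert t
    decide
  rw [h2] at h1
  exact h1

/-- Lower bound. -/
theorem trade_lower (k : ℕ) (e : Bool) (n m s : ℕ) (hm : 1 ≤ m)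
    (h : OddPar n ∈ Sig e k m s n) :
    n ^ 2 ≤ 10 ^ 15 * (6 * k + 6) ^ (4 * k + 4) * m ^ (4 * k + 3) * s := by
  by_contra hcon
  push Not at hcon
  have hns := odd_dep h
  have hms : m ≤ s := by
    by_contra hms
    push Not at hms
    have h1 : n ^ 2 ≤ m * s := by nlinarith
    have h2 : m * s ≤ 10 ^ 15 * (6 * k + 6) ^ (4 * k + 4) * m ^ (4 * k + 3) * s := by
      refine Nat.mul_le_mul_right s ?_
      have h3 : 1 ≤ (6 * k + 6) ^ (4 * k + 4) := Nat.one_le_pow _ _ (by omega)
      have h4 : m ≤ m ^ (4 * k + 3) := Nat.le_self_pow (by omega) m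
      calc m = 1 * 1 * m := by ring
        _ ≤ 10 ^ 15 * (6 * k + 6) ^ (4 * k + 4) * m ^ (4 * k + 3) :=
            Nat.mul_le_mul (Nat.mul_le_mul (by norm_num) h3) h4
    omega
  have heven := even_of_odd h
  set T := Nat.sqrt (s / m) + 1 with hT
  have hmpos : 0 < m := by omega
  have hq : 1 ≤ s / m := by
    rw [Nat.le_div_iff_mul_le hmpos, one_mul]
    exact hms
  have hT1 : s ≤ m * T ^ 2 := by
    have h1 : s / m < T * T := by rw [hT]; exact Nat.lt_succ_sqrt (s / m)
    have h2 := (Nat.div_lt_iff_lt_mul hmpos).1 h1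
    calc s ≤ T * T * m := h2.le
      _ = _ := by ring
  have hT2 : m * T ^ 2 ≤ 4 * s := by
    have h1 : Nat.sqrt (s / m) * Nat.sqrt (s / m) ≤ s / m := Nat.sqrt_le (s / m)
    have h2 : 1 ≤ Nat.sqrt (s / m) := Nat.sqrt_pos.2 hq
    have h3 : T ^ 2 ≤ 4 * (s / m) := by
      calc T ^ 2 ≤ (2 * Nat.sqrt (s / m)) ^ 2 := Nat.pow_le_pow_left (by omega) 2
        _ = 4 * (Nat.sqrt (s / m) * Nat.sqrt (s / m)) := by ring
        _ ≤ _ := Nat.mul_le_mul_left _ h1
    calc m * T ^ 2 ≤ m * (4 * (s / m)) := Nat.mul_le_mul_left _ h3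
      _ = 4 * (m * (s / m)) := by ring
      _ ≤ 4 * s := Nat.mul_le_mul_left _ (Nat.mul_div_le s m)
  set D := (6 * m * (k + 1)) ^ (k + 1) with hD
  have hDpos : 1 ≤ D := Nat.one_le_iff_ne_zero.2 (by rw [hD]; positivity)
  have hD4 : D ^ 4 = (6 * k + 6) ^ (4 * k + 4) * (m ^ (4 * k + 3) * m) := by
    rw [hD, ← pow_mul, ← pow_succ, ← mul_pow]
    congr 1 <;> ring
  refine parity_not_mem (V := Fin n) (T := T) (D := D) heven (τ := id) (fun v => coord_mem v)
    (fun z => even_iff_chi z) hm (by omega) ?_ hD.symm.le ?_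
  · calc s ≤ m * T ^ 2 := hT1
      _ = m * 1 * T ^ 2 := by ring
      _ ≤ m * (k + 1) * T ^ 2 :=
          Nat.mul_le_mul_right _ (Nat.mul_le_mul_left _ (by omega))
  · rw [Fintype.card_fin]
    have h1 : (11041920 * (T * D ^ 2)) ^ 2 ≤ n ^ 2 := by
      refine le_trans ?_ hcon.le
      refine Nat.le_of_mul_le_mul_left ?_ hmpos
      calc m * (11041920 * (T * D ^ 2)) ^ 2
          = 11041920 ^ 2 * (m * T ^ 2) * D ^ 4 := by ring
        _ ≤ 11041920 ^ 2 * (4 * s) * D ^ 4 :=
            Nat.mul_le_mul_right _ (Nat.mul_le_mul_left _ hT2)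
        _ = (4 * 11041920 ^ 2) * ((6 * k + 6) ^ (4 * k + 4) * m ^ (4 * k + 3) * s * m) := by
            rw [hD4]; ring
        _ ≤ 10 ^ 15 * ((6 * k + 6) ^ (4 * k + 4) * m ^ (4 * k + 3) * s * m) :=
            Nat.mul_le_mul_right _ (by norm_num)
        _ = _ := by ring
    have h2 := (Nat.pow_le_pow_iff_left (by norm_num)).1 h1
    refine le_trans ?_ h2
    have h3 : 8 * D ^ 2 + 1 ≤ 9 * D ^ 2 := by
      have : 1 ≤ D ^ 2 := Nat.one_le_pow 2 D hDpos
      omega
    calc 1226880 * T * (8 * D ^ 2 + 1) ≤ 1226880 * T * (9 * D ^ 2) := Nat.mul_le_mul_left _ h3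
      _ = _ := by ring

/-- Upper bound with `2 r` blocks. -/
theorem trade_upper (r n m s : ℕ) (hm : 2 ≤ m)
    (hs : 8 * n ^ 2 + 77 * m ^ (2 * r + 2) ≤ s * m ^ r) :
    OddPar n ∈ Sig true (2 * r) m s n := by
  set P := m ^ r with hP
  have hPpos : 0 < P := by rw [hP]; positivity
  -- block size
  obtain ⟨q, hq1, h8⟩ : ∃ q, n ≤ P * q ∧ P * q ≤ n + P := by
    refine ⟨n / P + 1, (Nat.lt_mul_div_succ n hPpos).le, ?_⟩
    rw [mul_add, mul_one]
    exact Nat.add_le_add_right (Nat.mul_div_le n P) P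
  obtain ⟨κ, hκ1, hκ2⟩ : ∃ κ, q + 2 ≤ 2 ^ κ ∧ 2 ^ κ ≤ 2 * (q + 2) := by
    refine ⟨Nat.clog 2 (q + 2), Nat.le_pow_clog (by norm_num) _, ?_⟩
    have hc : 0 < Nat.clog 2 (q + 2) := Nat.clog_pos (by norm_num) (by omega)
    have h2 := Nat.pow_pred_clog_lt_self (b := 2) (by norm_num) (x := q + 2) (by omega)
    have h3 : 2 ^ Nat.clog 2 (q + 2) = 2 * 2 ^ (Nat.clog 2 (q + 2)).pred := by
      conv_lhs => rw [← Nat.succ_pred_eq_of_pos hc]
      rw [pow_succ]; ring
    omega
  have h1 := even_mem (m := m) (κ := κ) (B := q) hm hκ1 r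
    (Finset.univ : Finset (Fin (n + 1))) (by
      rw [Finset.card_univ, Fintype.card_fin, ← hP]
      omega)
  have h2 := Sig.subst h1 (Fin.lastCases (.const true) fun i => .var i :
    Fin (n + 1) → Fml (Fin n)) (fun v => by
      refine Fin.lastCases ?_ (fun i => ?_) v
      · rw [Fin.lastCases_last]; exact Nat.zero_le _
      · rw [Fin.lastCases_castSucc]; exact le_rfl)
  have h3 : (fun x : Fin n → Bool => ∑ i ∈ (Finset.univ : Finset (Fin (n + 1))),
      bz (Fml.eval x ((Fin.lastCases (.const true) fun i => .var i :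
        Fin (n + 1) → Fml (Fin n)) i)) = 0) = OddPar n := by
    funext x
    unfold OddPar
    rw [odd_iff_sum, Fin.sum_univ_castSucc]
    simp only [Fin.lastCases_castSucc, Fin.lastCases_last]
    change ((∑ i : Fin n, bz (x i)) + bz true = 0) = _
    generalize ∑ i : Fin n, bz (x i) = t
    revert t
    decide
  rw [h3] at h2
  refine Sig.mono_size ?_ h2
  have h4 := sz_le (m := m) (κ := κ) hm r
  rw [← hP] at h4
  have h5 : sz m κ r ≤ P * (4 ^ κ + 5 * m ^ 2) := by omega
  refine h5.trans ?_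
  have h6 : (4 : ℕ) ^ κ = (2 ^ κ) ^ 2 := by rw [← pow_mul, mul_comm, pow_mul]; norm_num
  have h7 : 4 ^ κ ≤ 4 * (q + 2) ^ 2 := by
    rw [h6]
    calc (2 ^ κ) ^ 2 ≤ (2 * (q + 2)) ^ 2 := Nat.pow_le_pow_left hκ2 2
      _ = _ := by ring
  have h9 : P * (P * (4 ^ κ + 5 * m ^ 2)) ≤ 8 * n ^ 2 + 77 * (P ^ 2 * m ^ 2) := by
    have hm2 : 4 ≤ m ^ 2 := by nlinarith
    have h10 : P * (P * 4 ^ κ) ≤ 8 * n ^ 2 + 72 * P ^ 2 := by
      calc P * (P * 4 ^ κ) ≤ P * (P * (4 * (q + 2) ^ 2)) := by gcongr
        _ = 4 * (P * q + 2 * P) ^ 2 := by ring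
        _ ≤ 4 * (n + P + 2 * P) ^ 2 := by gcongr
        _ = 4 * (n + 3 * P) ^ 2 := by ring
        _ ≤ 8 * n ^ 2 + 72 * P ^ 2 := by
            zify
            nlinarith [sq_nonneg ((n : ℤ) - 3 * P)]
    calc P * (P * (4 ^ κ + 5 * m ^ 2)) = P * (P * 4 ^ κ) + 5 * (P ^ 2 * m ^ 2) := by ring
      _ ≤ 8 * n ^ 2 + 72 * P ^ 2 + 5 * (P ^ 2 * m ^ 2) := Nat.add_le_add_right h10 _
      _ ≤ 8 * n ^ 2 + 72 * (P ^ 2 * m ^ 2) + 5 * (P ^ 2 * m ^ 2) := by
          have : P ^ 2 ≤ P ^ 2 * m ^ 2 := Nat.le_mul_of_pos_right _ (by omega)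
          omega
      _ = _ := by ring
  have h11 : P ^ 2 * m ^ 2 = m ^ (2 * r + 2) := by
    rw [hP, ← pow_mul, ← pow_add]; congr 1; ring
  rw [h11] at h9
  refine Nat.le_of_mul_le_mul_left ?_ hPpos
  calc P * (P * (4 ^ κ + 5 * m ^ 2)) ≤ _ := h9
    _ ≤ s * P := hs
    _ = _ := by ring

/-- substitution, general variables -/
def subG {V V' : Type} (σ : V → Fml V') : Fml V → Fml V'
  | .const b => .const b
  | .var v => σ v
  | .neg φ => .neg (subG σ φ)
  | .and φ ψ => .and (subG σ φ) (subG σ ψ)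
  | .or φ ψ => .or (subG σ φ) (subG σ ψ)

theorem subG_eval {V V' : Type} (σ : V → Fml V') (φ : Fml V) (x : V' → Bool) :
    (subG σ φ).eval x = φ.eval fun v => (σ v).eval x := by
  induction φ with
  | const b => rfl
  | var v => rfl
  | neg φ ih => change (!(subG σ φ).eval x) = !(φ.eval _); rw [ih]
  | and φ ψ ih1 ih2 =>
    change ((subG σ φ).eval x && (subG σ ψ).eval x) = (φ.eval _ && ψ.eval _); rw [ih1, ih2]
  | or φ ψ ih1 ih2 =>
    change ((subG σ φ).eval x || (subG σ ψ).eval x) = (φ.eval _ || ψ.eval _); rw [ih1, ih2]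

theorem subG_size {V V' : Type} (σ : V → Fml V') (hσ : ∀ v, (σ v).size ≤ 1)
    (φ : Fml V) : (subG σ φ).size ≤ φ.size := by
  induction φ with
  | const b => exact le_rfl
  | var v => exact hσ v
  | neg φ ih => exact ih
  | and φ ψ ih1 ih2 => exact Nat.add_le_add ih1 ih2
  | or φ ψ ih1 ih2 => exact Nat.add_le_add ih1 ih2

/-- single-bit blocks -/
theorem quant_sig (M : ℕ) : ∀ (e : Bool) (n : ℕ) (φ : Fml (Fin n ⊕ Fin M)) (s : ℕ), φ.size ≤ s →
    (fun x : Fin n → Bool => Quant M (fun i => Nat.bodd i.1 ^^ !e)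
      (fun y => φ.eval (Sum.elim x y) = true)) ∈ Sig e M 1 s n := by
  induction M with
  | zero =>
    intro e n φ s hs
    have : ∃ ψ : Fml (Fin n), ψ.size ≤ s ∧ ∀ x : Fin n → Bool,
        (Quant 0 (fun i => Nat.bodd i.1 ^^ !e)
          (fun y => φ.eval (Sum.elim x y) = true)) ↔ ψ.eval x = true := by
      refine ⟨subG (Sum.elim (fun i => .var i) fun i => i.elim0) φ,
        (subG_size _ (fun v => ?_) φ).trans hs, fun x => ?_⟩
      · rcases v with v | v
        · exact le_rfl
        · exact v.elim0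
      · rw [subG_eval]
        change φ.eval _ = true ↔ _
        have e1 : (Sum.elim x fun i : Fin 0 => i.elim0) = fun v => Fml.eval x
            ((Sum.elim (fun i => .var i) fun i => i.elim0 : Fin n ⊕ Fin 0 → Fml (Fin n)) v) := by
          funext v
          rcases v with v | v
          · rfl
          · exact v.elim0
        rw [← e1]
    cases e <;> exact this
  | succ M ih =>
    intro e n φ s hs
    let σ : Fin n ⊕ Fin (M + 1) → Fml (Fin (n + 1) ⊕ Fin M) :=
      Sum.elim (fun i => .var (Sum.inl (Fin.castAdd 1 i)))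
        (Fin.cases (.var (Sum.inl (Fin.natAdd n 0))) fun j => .var (Sum.inr j))
    have hσ : ∀ v, (σ v).size ≤ 1 := by
      intro v
      rcases v with v | v
      · exact le_rfl
      · refine Fin.cases ?_ (fun j => ?_) v
        · exact le_rfl
        · exact le_rfl
    have hg := ih (!e) (n + 1) (subG σ φ) s ((subG_size σ hσ φ).trans hs)
    have hpre : ∀ e : Bool, (fun i : Fin M => Nat.bodd i.1 ^^ !(!e))
        = fun i : Fin M => Nat.bodd i.succ.1 ^^ !e := by
      intro e
      funext i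
      rw [Fin.val_succ, Nat.bodd_succ]
      cases Nat.bodd i.1 <;> cases e <;> rfl
    have hval : ∀ (x : Fin n → Bool) (y : Fin 1 → Bool) (z : Fin M → Bool),
        (subG σ φ).eval (Sum.elim (Fin.append x y) z)
          = φ.eval (Sum.elim x (Fin.cons (y 0) z)) := by
      intro x y z
      rw [subG_eval]
      congr 1
      funext v
      rcases v with v | v
      · change Sum.elim (Fin.append x y) z (Sum.inl (Fin.castAdd 1 v)) = x v
        rw [Sum.elim_inl, Fin.append_left]
      · refine Fin.cases ?_ (fun j => ?_) v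
        · change Sum.elim (Fin.append x y) z (Sum.inl (Fin.natAdd n 0)) = y 0
          rw [Sum.elim_inl, Fin.append_right]
        · rfl
    cases e with
    | true =>
      refine ⟨_, hg, fun x => ?_⟩
      beta_reduce
      rw [quant_succ, if_neg (by simp)]
      constructor
      · rintro ⟨b, hb⟩
        refine ⟨fun _ => b, ?_⟩
        rw [hpre]
        simp only [hval]
        exact hb
      · rintro ⟨y, hy⟩
        refine ⟨y 0, ?_⟩
        rw [hpre] at hy
        simp only [hval] at hy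
        exact hy
    | false =>
      refine ⟨_, hg, fun x => ?_⟩
      beta_reduce
      rw [quant_succ, if_pos (by simp)]
      constructor
      · intro h y
        rw [hpre]
        simp only [hval]
        exact h (y 0)
      · intro h b
        have hy := h fun _ => b
        rw [hpre] at hy
        simp only [hval] at hy
        exact hy

theorem alternating' (n : ℕ) (hn : 0 < n) : ∃ φ : Fml (Fin n ⊕ Fin (2 * Nat.clog 2 n)),
    φ.size ≤ 28 * n ∧
    ∀ x : Fin n → Bool, Odd (Finset.univ.filter fun i => x i = true).card ↔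
      Quant (2 * Nat.clog 2 n) (altq (2 * Nat.clog 2 n))
        (fun y => φ.eval (Sum.elim x y) = true) := by
  set k := Nat.clog 2 n with hk
  have hk1 : n ≤ 2 ^ k := Nat.le_pow_clog (by norm_num) n
  have hk2 : 2 ^ k ≤ 2 * n := by
    rcases Nat.lt_or_ge 1 n with h | h
    · have h1 : 0 < k := Nat.clog_pos (by norm_num) h
      have h2 : 2 ^ (k - 1) < n := Nat.pow_pred_clog_lt_self (by norm_num) h
      have h3 : 2 ^ k = 2 * 2 ^ (k - 1) := by
        rw [← pow_succ']; congr 1; omega
      omega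
    · have : n = 1 := by omega
      have h2 : k = 0 := by rw [hk, this]; simp
      rw [h2]; omega
  let X : ℕ → Fml (Fin n ⊕ Fin (2 * k)) := fun j =>
    if h : j < n then .var (Sum.inl ⟨j, h⟩) else .const false
  let Y : ℕ → Fml (Fin n ⊕ Fin (2 * k)) := fun j =>
    if h : j < 2 * k then .var (Sum.inr ⟨j, h⟩) else .const false
  have hX : ∀ j, (X j).size ≤ 1 := by
    intro j
    by_cases h : j < n
    · simp only [X]; rw [dif_pos h]; exact le_rfl
    · simp only [X]; rw [dif_neg h]; exact Nat.zero_le _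
  have hY : ∀ j, (Y j).size ≤ 1 := by
    intro j
    by_cases h : j < 2 * k
    · simp only [Y]; rw [dif_pos h]; exact le_rfl
    · simp only [Y]; rw [dif_neg h]; exact Nat.zero_le _
  obtain ⟨φ, h1, h2⟩ := mux_fml k X Y hX hY
  obtain ⟨ψ, h3, h4⟩ := tgt_fml k (.const true) Y hY
  refine ⟨.or (.and φ ψ) (.and (.neg φ) (.neg ψ)), ?_, fun x => ?_⟩
  · change (φ.size + ψ.size) + (φ.size + ψ.size) ≤ _
    have h5 : (Fml.const true : Fml (Fin n ⊕ Fin (2 * k))).size = 0 := rfl
    rw [h5] at h3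
    omega
  · rw [odd_iff_sum]
    have hsum : ∑ i : Fin n, bz (x i) = ∑ j ∈ Finset.range (2 ^ k), bz (str x j) := by
      rw [← Finset.sum_subset (Finset.range_subset_range.2 hk1)]
      · rw [Finset.sum_range]
        refine Finset.sum_congr rfl fun i _ => ?_
        unfold str
        rw [dif_pos i.2]
      · intro j _ hj
        rw [Finset.mem_range] at hj
        unfold str
        rw [dif_neg hj]; rfl
    rw [hsum]
    have hq := quant_parity k (str x) true
    have e1 : bz true = 1 := rfl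
    rw [e1] at hq
    rw [hq]
    have e2 : (fun y : Fin (2 * k) → Bool => (mux k (str x) (str y) == tgt k true (str y)) = true)
        = fun y => (Fml.or (.and φ ψ) (.and (.neg φ) (.neg ψ))).eval (Sum.elim x y) = true := by
      funext y
      have e3 : (Fml.or (.and φ ψ) (.and (.neg φ) (.neg ψ))).eval (Sum.elim x y)
          = ((φ.eval (Sum.elim x y) && ψ.eval (Sum.elim x y)) ||
            (!(φ.eval (Sum.elim x y)) && !(ψ.eval (Sum.elim x y)))) := rfl
      have eX : (fun j => (X j).eval (Sum.elim x y)) = str x := by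
        funext j
        by_cases h : j < n
        · simp only [X, str]; rw [dif_pos h, dif_pos h]; rfl
        · simp only [X, str]; rw [dif_neg h, dif_neg h]; rfl
      have eY : (fun j => (Y j).eval (Sum.elim x y)) = str y := by
        funext j
        by_cases h : j < 2 * k
        · simp only [Y, str]; rw [dif_pos h, dif_pos h]; rfl
        · simp only [Y, str]; rw [dif_neg h, dif_neg h]; rfl
      rw [e3, h2, h4, eX, eY]
      change _ = (((mux k (str x) (str y) && tgt k true (str y)) ||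
        (!(mux k (str x) (str y)) && !(tgt k true (str y)))) = true)
      cases mux k (str x) (str y) <;> cases tgt k true (str y) <;> simp
    rw [e2]


/-- Upper bound with alternating single bits. -/
theorem trade_log (n : ℕ) (hn : 0 < n) :
    OddPar n ∈ Sig true (2 * Nat.clog 2 n) 1 (28 * n) n := by
  obtain ⟨φ, h1, h2⟩ := alternating' n hn
  have h3 := quant_sig (2 * Nat.clog 2 n) true n φ (28 * n) h1
  have h4 : (fun x : Fin n → Bool => Quant (2 * Nat.clog 2 n)
      (fun i => Nat.bodd i.1 ^^ !true) (fun y => φ.eval (Sum.elim x y) = true)) = OddPar n := by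
    funext x
    unfold OddPar
    rw [eq_iff_iff, h2 x]
    have h5 : (fun i : Fin (2 * Nat.clog 2 n) => Nat.bodd i.1 ^^ !true)
        = altq (2 * Nat.clog 2 n) := by
      funext i
      unfold altq
      cases Nat.bodd i.1 <;> rfl
    rw [h5]
  rw [h4] at h3
  exact h3

end H599.PH
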