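import Pool.Agent.H599R2.PH.Defs
import Pool.Agent.H599R2.QB.QFml2

/-!
# Closure properties of the levels; a collapse propagates upwards
-/

namespace H599.PH

open Pool.Agent.H564R2.QF (Fml)

/-- substitution -/
def sub {n n' : ℕ} (σ : Fin n → Fml (Fin n')) : Fml (Fin n) → Fml (Fin n')
  | .const b => .const b
  | .var v => σ v
  | .neg φ => .neg (sub σ φ)
  | .and φ ψ => .and (sub σ φ) (sub σ ψ)
  | .or φ ψ => .or (sub σ φ) (sub σ ψ)

theorem sub_eval {n n' : ℕ} (σ : Fin n → Fml (Fin n')) (φ : Fml (Fin n)) (x : Fin n' → Bool) :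
    (sub σ φ).eval x = φ.eval fun v => (σ v).eval x := by
  induction φ with
  | const b => rfl
  | var v => rfl
  | neg φ ih => change (!(sub σ φ).eval x) = !(φ.eval _); rw [ih]
  | and φ ψ ih1 ih2 =>
    change ((sub σ φ).eval x && (sub σ ψ).eval x) = (φ.eval _ && ψ.eval _); rw [ih1, ih2]
  | or φ ψ ih1 ih2 =>
    change ((sub σ φ).eval x || (sub σ ψ).eval x) = (φ.eval _ || ψ.eval _); rw [ih1, ih2]

theorem sub_size {n n' : ℕ} (σ : Fin n → Fml (Fin n')) (hσ : ∀ v, (σ v).size ≤ 1)
    (φ : Fml (Fin n)) : (sub σ φ).size ≤ φ.size := by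
  induction φ with
  | const b => exact le_rfl
  | var v => exact hσ v
  | neg φ ih => exact ih
  | and φ ψ ih1 ih2 => exact Nat.add_le_add ih1 ih2
  | or φ ψ ih1 ih2 => exact Nat.add_le_add ih1 ih2

/-- substitution of literals and constants for the input bits -/
theorem Sig.subst {e : Bool} {k m s n n' : ℕ} {f : (Fin n → Bool) → Prop}
    (hf : f ∈ Sig e k m s n) (σ : Fin n → Fml (Fin n')) (hσ : ∀ v, (σ v).size ≤ 1) :
    (fun x : Fin n' → Bool => f fun v => (σ v).eval x) ∈ Sig e k m s n' := by
  induction k generalizing e n n' f with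
  | zero =>
    have hf' : ∃ φ : Fml (Fin n), φ.size ≤ s ∧ ∀ x, f x ↔ φ.eval x = true := by
      cases e <;> exact hf
    obtain ⟨φ, h1, h2⟩ := hf'
    have : ∃ φ : Fml (Fin n'), φ.size ≤ s ∧
        ∀ x, (f fun v => (σ v).eval x) ↔ φ.eval x = true :=
      ⟨sub σ φ, (sub_size σ hσ φ).trans h1, fun x => by rw [h2, sub_eval]⟩
    cases e <;> exact this
  | succ k ih =>
    let σ' : Fin (n + m) → Fml (Fin (n' + m)) :=
      Fin.addCases (fun i => sub (fun j => .var (Fin.castAdd m j)) (σ i))
        (fun j => .var (Fin.natAdd n' j))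
    have hσ' : ∀ v, (σ' v).size ≤ 1 := by
      intro v
      refine Fin.addCases (fun i => ?_) (fun i => ?_) v
      · change (Fin.addCases _ _ (Fin.castAdd m i) : Fml (Fin (n' + m))).size ≤ 1
        rw [Fin.addCases_left]
        exact (sub_size _ (fun _ => le_rfl) (σ i)).trans (hσ i)
      · change (Fin.addCases _ _ (Fin.natAdd n i) : Fml (Fin (n' + m))).size ≤ 1
        rw [Fin.addCases_right]
        exact le_rfl
    have hev : ∀ (x : Fin n' → Bool) (y : Fin m → Bool),
        (fun v => (σ' v).eval (Fin.append x y)) = Fin.append (fun v => (σ v).eval x) y := by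
      intro x y
      funext v
      refine Fin.addCases (fun i => ?_) (fun i => ?_) v
      · change (Fin.addCases _ _ (Fin.castAdd m i) : Fml (Fin (n' + m))).eval _ = _
        rw [Fin.addCases_left, Fin.append_left, sub_eval]
        congr 1
        funext j
        change Fin.append x y (Fin.castAdd m j) = _
        rw [Fin.append_left]
      · change (Fin.addCases _ _ (Fin.natAdd n i) : Fml (Fin (n' + m))).eval _ = _
        rw [Fin.addCases_right, Fin.append_right]
        change Fin.append x y (Fin.natAdd n' i) = _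
        rw [Fin.append_right]
    cases e with
    | true =>
      obtain ⟨g, hg, hg'⟩ := hf
      refine ⟨_, ih hg σ' hσ', fun x => ?_⟩
      beta_reduce
      rw [hg']
      exact exists_congr fun y => by rw [hev]
    | false =>
      obtain ⟨g, hg, hg'⟩ := hf
      refine ⟨_, ih hg σ' hσ', fun x => ?_⟩
      beta_reduce
      rw [hg']
      exact forall_congr' fun y => by rw [hev]

/-- complements -/
theorem Sig.compl {e : Bool} {k m s n : ℕ} {f : (Fin n → Bool) → Prop}
    (hf : f ∈ Sig e k m s n) : (fun x => ¬ f x) ∈ Sig (!e) k m s n := by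
  induction k generalizing e n f with
  | zero =>
    have hf' : ∃ φ : Fml (Fin n), φ.size ≤ s ∧ ∀ x, f x ↔ φ.eval x = true := by
      cases e <;> exact hf
    obtain ⟨φ, h1, h2⟩ := hf'
    have : ∃ φ : Fml (Fin n), φ.size ≤ s ∧ ∀ x, (¬ f x) ↔ φ.eval x = true :=
      ⟨.neg φ, h1, fun x => by
        rw [h2]
        change _ ↔ (!φ.eval x) = true
        rw [Bool.not_eq_true', Bool.not_eq_true]⟩
    cases e <;> exact this
  | succ k ih =>
    cases e with
    | true =>
      obtain ⟨g, hg, hg'⟩ := hf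
      exact ⟨_, ih hg, fun x => by beta_reduce; rw [hg', not_exists]⟩
    | false =>
      obtain ⟨g, hg, hg'⟩ := hf
      exact ⟨_, ih hg, fun x => by beta_reduce; rw [hg', not_forall]⟩

/-- monotonicity in the size -/
theorem Sig.mono_size {e : Bool} {k m s s' n : ℕ} (h : s ≤ s') {f : (Fin n → Bool) → Prop}
    (hf : f ∈ Sig e k m s n) : f ∈ Sig e k m s' n := by
  induction k generalizing e n f with
  | zero =>
    have hf' : ∃ φ : Fml (Fin n), φ.size ≤ s ∧ ∀ x, f x ↔ φ.eval x = true := by
      cases e <;> exact hf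
    obtain ⟨φ, h1, h2⟩ := hf'
    have : ∃ φ : Fml (Fin n), φ.size ≤ s' ∧ ∀ x, f x ↔ φ.eval x = true :=
      ⟨φ, h1.trans h, h2⟩
    cases e <;> exact this
  | succ k ih =>
    cases e with
    | true =>
      obtain ⟨g, hg, hg'⟩ := hf
      exact ⟨g, ih hg, hg'⟩
    | false =>
      obtain ⟨g, hg, hg'⟩ := hf
      exact ⟨g, ih hg, hg'⟩

/-- dummy block -/
theorem Sig.succ {e : Bool} {k m s n : ℕ} {f : (Fin n → Bool) → Prop}
    (hf : f ∈ Sig e k m s n) : f ∈ Sig e (k + 1) m s n := by
  induction k generalizing e n f with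
  | zero =>
    have hf' : ∃ φ : Fml (Fin n), φ.size ≤ s ∧ ∀ x, f x ↔ φ.eval x = true := by
      cases e <;> exact hf
    obtain ⟨φ, h1, h2⟩ := hf'
    have hg : ∃ φ' : Fml (Fin (n + m)), φ'.size ≤ s ∧
        ∀ w : Fin (n + m) → Bool, (f fun v => w (Fin.castAdd m v)) ↔ φ'.eval w = true :=
      ⟨sub (fun v => .var (Fin.castAdd m v)) φ, (sub_size _ (fun _ => le_rfl) φ).trans h1,
        fun w => by rw [h2, sub_eval]; rfl⟩
    have he : ∀ (x : Fin n → Bool) (y : Fin m → Bool),
        (fun v => Fin.append x y (Fin.castAdd m v)) = x := fun x y => by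
      funext v; rw [Fin.append_left]
    cases e with
    | true =>
      refine ⟨_, hg, fun x => ?_⟩
      simp only [he, exists_const]
    | false =>
      refine ⟨_, hg, fun x => ?_⟩
      simp only [he, forall_const]
  | succ k ih =>
    cases e with
    | true =>
      obtain ⟨g, hg, hg'⟩ := hf
      exact ⟨g, ih hg, hg'⟩
    | false =>
      obtain ⟨g, hg, hg'⟩ := hf
      exact ⟨g, ih hg, hg'⟩

theorem collapse_pad {k m s m' s' n n' : ℕ} (h : Sig true (k + 1) m s n ⊆ Sig true k m' s' n)
    (hn : n' ≤ n) : Sig true (k + 1) m s n' ⊆ Sig true k m' s' n' := by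
  obtain ⟨d, rfl⟩ := Nat.exists_eq_add_of_le hn
  intro f hf
  have h1 := Sig.subst hf (fun v => (.var (Fin.castAdd d v) : Fml (Fin (n' + d))))
    fun _ => le_rfl
  have h2 := h h1
  have h3 := Sig.subst h2 (Fin.addCases (fun i => .var i) (fun _ => .const false) :
    Fin (n' + d) → Fml (Fin n')) (fun v => by
      refine Fin.addCases (fun i => ?_) (fun i => ?_) v
      · rw [Fin.addCases_left]; exact le_rfl
      · rw [Fin.addCases_right]; exact Nat.zero_le _)
  have h4 : f = fun x : Fin n' → Bool => f fun v => Fml.eval (fun v => Fml.eval x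
      ((Fin.addCases (fun i => .var i) (fun _ => .const false) :
        Fin (n' + d) → Fml (Fin n')) v)) (.var (Fin.castAdd d v)) := by
    funext x
    congr 1
    funext v
    change _ = (Fin.addCases _ _ (Fin.castAdd d v) : Fml (Fin n')).eval x
    rw [Fin.addCases_left]
    rfl
  rw [h4]
  exact h3

theorem collapse_pad_false {k m s m' s' n n' : ℕ}
    (h : Sig true (k + 1) m s n ⊆ Sig true k m' s' n) (hn : n' ≤ n) :
    Sig false (k + 1) m s n' ⊆ Sig false k m' s' n' := by
  intro f hf
  have h2 := Sig.compl (collapse_pad h hn (Sig.compl hf))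
  have h4 : f = fun x => ¬¬ f x := by
    funext x; exact propext not_not.symm
  rw [h4]
  exact h2

/-- enlarging a block -/
theorem Sig.enlarge {e : Bool} {k m m' s n : ℕ} (hm : m ≤ m') {g : (Fin (n + m) → Bool) → Prop}
    (hg : g ∈ Sig e k m' s (n + m)) :
    ∃ g' ∈ Sig e k m' s (n + m'),
      (∀ x, (∃ y : Fin m → Bool, g (Fin.append x y)) ↔
        ∃ y : Fin m' → Bool, g' (Fin.append x y)) ∧
      ∀ x, (∀ y : Fin m → Bool, g (Fin.append x y)) ↔
        ∀ y : Fin m' → Bool, g' (Fin.append x y) := by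
  have h1 := Sig.subst hg (fun v => (.var (Fin.castLE (by omega) v) : Fml (Fin (n + m'))))
    fun _ => le_rfl
  have key : ∀ (x : Fin n → Bool) (y : Fin m' → Bool),
      (fun v => Fml.eval (Fin.append x y)
        (.var (Fin.castLE (by omega : n + m ≤ n + m') v) : Fml (Fin (n + m'))))
        = Fin.append x fun i => y (Fin.castLE hm i) := by
    intro x y
    funext v
    change Fin.append x y (Fin.castLE (by omega : n + m ≤ n + m') v) = _
    refine Fin.addCases (fun i => ?_) (fun i => ?_) v
    · rw [Fin.append_left]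
      have e : Fin.castLE (by omega : n + m ≤ n + m') (Fin.castAdd m i) = Fin.castAdd m' i := rfl
      rw [e, Fin.append_left]
    · rw [Fin.append_right]
      have e : Fin.castLE (by omega : n + m ≤ n + m') (Fin.natAdd n i)
          = Fin.natAdd n (Fin.castLE hm i) := rfl
      rw [e, Fin.append_right]
  have hsurj : ∀ y : Fin m → Bool, ∃ y' : Fin m' → Bool, (fun i => y' (Fin.castLE hm i)) = y := by
    intro y
    refine ⟨fun i => if h : i.1 < m then y ⟨i.1, h⟩ else false, ?_⟩
    funext i
    simp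
  refine ⟨_, h1, fun x => ?_, fun x => ?_⟩
  · simp only [key]
    constructor
    · rintro ⟨y, hy⟩
      obtain ⟨y', rfl⟩ := hsurj y
      exact ⟨y', hy⟩
    · rintro ⟨y', hy⟩
      exact ⟨_, hy⟩
  · simp only [key]
    constructor
    · intro h y'
      exact h _
    · intro h y
      obtain ⟨y', rfl⟩ := hsurj y
      exact h y'

/-- monotonicity in the length of the blocks -/
theorem Sig.mono_bits {e : Bool} {k m m' s n : ℕ} (hm : m ≤ m') {f : (Fin n → Bool) → Prop}
    (hf : f ∈ Sig e k m s n) : f ∈ Sig e k m' s n := by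
  induction k generalizing e n f with
  | zero =>
    have hf' : ∃ φ : Fml (Fin n), φ.size ≤ s ∧ ∀ x, f x ↔ φ.eval x = true := by
      cases e <;> exact hf
    cases e <;> exact hf'
  | succ k ih =>
    cases e with
    | true =>
      obtain ⟨g, hg, hg'⟩ := hf
      obtain ⟨g', h1, h2, _⟩ := Sig.enlarge hm (ih hg)
      exact ⟨g', h1, fun x => by rw [hg', h2]⟩
    | false =>
      obtain ⟨g, hg, hg'⟩ := hf
      obtain ⟨g', h1, _, h2⟩ := Sig.enlarge hm (ih hg)
      exact ⟨g', h1, fun x => by rw [hg', h2]⟩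

/-- A collapse, up to factors, propagates upwards. -/
theorem collapse {k m s n : ℕ} (c : ℕ → ℕ) (hc : ∀ i, c i ≤ c (i + 1)) (j : ℕ)
    (h : ∀ i < j, Sig true (k + 1) (c i * m) (c i * s) n
      ⊆ Sig true k (c (i + 1) * m) (c (i + 1) * s) n) :
    ∀ (e : Bool) (n' : ℕ), n' + j * (c j * m) ≤ n →
      Sig e (k + j) (c 0 * m) (c 0 * s) n' ⊆ Sig e k (c j * m) (c j * s) n' := by
  have hmono : Monotone c := monotone_nat_of_le_succ hc
  induction j with
  | zero => intro e n' _; exact subset_rfl
  | succ j ih =>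
    intro e n' hn f hf
    replace ih := ih fun i hi => h i (by omega)
    have h0j : c 0 * m ≤ c j * m := Nat.mul_le_mul_right m (hmono (Nat.zero_le j))
    have hn' : n' + c 0 * m + j * (c j * m) ≤ n := by
      refine le_trans ?_ hn
      have h1 : c j * m ≤ c (j + 1) * m := Nat.mul_le_mul_right m (hc j)
      calc n' + c 0 * m + j * (c j * m) ≤ n' + c j * m + j * (c j * m) := by omega
        _ = n' + (j + 1) * (c j * m) := by ring
        _ ≤ n' + (j + 1) * (c (j + 1) * m) :=
            Nat.add_le_add_left (Nat.mul_le_mul_left _ h1) _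
    have hle : n' ≤ n := by omega
    cases e with
    | true =>
      obtain ⟨g, hg, hg'⟩ := hf
      obtain ⟨g', h1, h2, _⟩ := Sig.enlarge h0j (ih false (n' + c 0 * m) hn' hg)
      exact collapse_pad (h j (Nat.lt_succ_self j)) hle ⟨g', h1, fun x => by rw [hg', h2]⟩
    | false =>
      obtain ⟨g, hg, hg'⟩ := hf
      obtain ⟨g', h1, _, h2⟩ := Sig.enlarge h0j (ih true (n' + c 0 * m) hn' hg)
      exact collapse_pad_false (h j (Nat.lt_succ_self j)) hle ⟨g', h1, fun x => by rw [hg', h2]⟩

end H599.PH
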