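import Pool.Agent.H599R2.PH.Clo

/-!
# Upper bound: parity with many alternations
-/

namespace H599.PH

open Finset H599.QB
open Pool.Agent.H564R2.QF (Fml)

/-- conjunction of a family of formulas -/
theorem bigAnd {V : Type} {J c : ℕ} (ψ : Fin J → Fml V) (h : ∀ j, (ψ j).size ≤ c) :
    ∃ φ : Fml V, φ.size ≤ J * c ∧ ∀ x, φ.eval x = true ↔ ∀ j, (ψ j).eval x = true := by
  induction J with
  | zero => exact ⟨.const true, by simp [Fml.size], fun x => by simp [Fml.eval]⟩
  | succ J ih =>
    obtain ⟨φ, h1, h2⟩ := ih (fun j => ψ j.succ) fun j => h j.succ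
    refine ⟨.and (ψ 0) φ, ?_, fun x => ?_⟩
    · change (ψ 0).size + φ.size ≤ _
      have := h 0
      rw [add_mul, one_mul]; omega
    · change ((ψ 0).eval x && φ.eval x) = true ↔ _
      rw [Bool.and_eq_true, h2, Fin.forall_fin_succ]

/-- selected conjunctions -/
theorem Sig.select {K m s n J a b : ℕ} {e : Bool} (β : Fml (Fin n)) (hβ : β.size ≤ b)
    (σ : Fin J → Fml (Fin n)) (hσ : ∀ j, (σ j).size ≤ a)
    (hdis : ∀ x i j, (σ i).eval x = true → (σ j).eval x = true → i = j)
    (f : Fin J → (Fin n → Bool) → Prop) (hf : ∀ j, f j ∈ Sig e K m s n) :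
    (fun x => β.eval x = true ∧ ∀ j, (σ j).eval x = true → f j x)
      ∈ Sig e K m (b + J * (s + a)) n := by
  induction K generalizing e n with
  | zero =>
    have hf' : ∀ j, ∃ φ : Fml (Fin n), φ.size ≤ s ∧ ∀ x, f j x ↔ φ.eval x = true := by
      intro j
      have := hf j
      cases e <;> exact this
    choose φ h1 h2 using hf'
    obtain ⟨Φ, h3, h4⟩ := bigAnd (fun j => Fml.or (.neg (σ j)) (φ j)) (c := s + a) fun j => by
      change (σ j).size + (φ j).size ≤ _
      have := h1 j
      have := hσ j
      omega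
    have : ∃ Ψ : Fml (Fin n), Ψ.size ≤ b + J * (s + a) ∧
        ∀ x, (β.eval x = true ∧ ∀ j, (σ j).eval x = true → f j x) ↔ Ψ.eval x = true := by
      refine ⟨.and β Φ, Nat.add_le_add hβ h3, fun x => ?_⟩
      change _ ↔ (β.eval x && Φ.eval x) = true
      rw [Bool.and_eq_true, h4]
      refine and_congr_right fun _ => forall_congr' fun j => ?_
      change _ ↔ (!(σ j).eval x || (φ j).eval x) = true
      rw [h2 j x]
      cases (σ j).eval x <;> cases (φ j).eval x <;> simp
    cases e <;> exact this
  | succ K ih =>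
    have hev : ∀ (φ : Fml (Fin n)) (x : Fin n → Bool) (y : Fin m → Bool),
        (sub (fun v => (.var (Fin.castAdd m v) : Fml (Fin (n + m)))) φ).eval (Fin.append x y)
          = φ.eval x := by
      intro φ x y
      rw [sub_eval]
      congr 1
      funext v
      change Fin.append x y (Fin.castAdd m v) = _
      rw [Fin.append_left]
    have hev2 : ∀ (φ : Fml (Fin n)) (w : Fin (n + m) → Bool),
        (sub (fun v => (.var (Fin.castAdd m v) : Fml (Fin (n + m)))) φ).eval w
          = φ.eval fun v => w (Fin.castAdd m v) := by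
      intro φ w
      rw [sub_eval]; rfl
    cases e with
    | true =>
      choose g hg hg' using hf
      refine ⟨_, ih (sub (fun v => .var (Fin.castAdd m v)) β)
        ((sub_size _ (fun _ => le_rfl) β).trans hβ)
        (fun j => sub (fun v => .var (Fin.castAdd m v)) (σ j))
        (fun j => (sub_size _ (fun _ => le_rfl) _).trans (hσ j))
        (fun w i j hi hj => hdis _ i j (by rw [hev2] at hi; exact hi)
          (by rw [hev2] at hj; exact hj)) g hg, fun x => ?_⟩
      simp only [hev]
      constructor
      · rintro ⟨h1, h2⟩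
        by_cases hex : ∃ j, (σ j).eval x = true
        · obtain ⟨j, hj⟩ := hex
          obtain ⟨y, hy⟩ := (hg' j x).1 (h2 j hj)
          refine ⟨y, h1, fun i hi => ?_⟩
          rw [hdis x i j hi hj]
          exact hy
        · exact ⟨fun _ => false, h1, fun i hi => absurd ⟨i, hi⟩ hex⟩
      · rintro ⟨y, h1, h2⟩
        exact ⟨h1, fun j hj => (hg' j x).2 ⟨y, h2 j hj⟩⟩
    | false =>
      choose g hg hg' using hf
      refine ⟨_, ih (sub (fun v => .var (Fin.castAdd m v)) β)
        ((sub_size _ (fun _ => le_rfl) β).trans hβ)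
        (fun j => sub (fun v => .var (Fin.castAdd m v)) (σ j))
        (fun j => (sub_size _ (fun _ => le_rfl) _).trans (hσ j))
        (fun w i j hi hj => hdis _ i j (by rw [hev2] at hi; exact hi)
          (by rw [hev2] at hj; exact hj)) g hg, fun x => ?_⟩
      simp only [hev]
      constructor
      · rintro ⟨h1, h2⟩ y
        exact ⟨h1, fun j hj => (hg' j x).1 (h2 j hj) y⟩
      · intro h
        exact ⟨(h fun _ => false).1, fun j hj => (hg' j x).2 fun y => (h y).2 j hj⟩

/-- partition into `m` sets of size at most `q` -/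
theorem partition {V : Type} [DecidableEq V] (m q : ℕ) (X : Finset V) (h : X.card ≤ m * q) :
    ∃ Y : Fin m → Finset V, (∀ j, (Y j).card ≤ q) ∧
      ∀ a : V → ZMod 2, ∑ i ∈ X, a i = ∑ j, ∑ i ∈ Y j, a i := by
  induction m generalizing X with
  | zero =>
    have : X = ∅ := Finset.card_eq_zero.1 (by omega)
    subst this
    exact ⟨fun j => j.elim0, fun j => j.elim0, fun a => by simp⟩
  | succ m ih =>
    obtain ⟨T, hT, hTc⟩ := Finset.exists_subset_card_eq
      (s := X) (n := min X.card q) (min_le_left _ _)
    have h1 : T.card ≤ q := hTc ▸ min_le_right _ _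
    have h2 : (X \ T).card ≤ m * q := by
      rw [Finset.card_sdiff_of_subset hT, hTc]
      rw [add_mul, one_mul] at h
      omega
    obtain ⟨Y, h3, h4⟩ := ih (X \ T) h2
    refine ⟨Fin.cons T Y, fun j => ?_, fun a => ?_⟩
    · refine Fin.cases ?_ (fun j => ?_) j
      · rw [Fin.cons_zero]; exact h1
      · rw [Fin.cons_succ]; exact h3 j
    · rw [Fin.sum_univ_succ, Fin.cons_zero, ← Finset.sum_sdiff hT, h4 a, add_comm]
      simp only [Fin.cons_succ]

/-- the size recursion -/
def sz (m κ : ℕ) : ℕ → ℕ
  | 0 => 4 ^ κ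
  | r + 1 => 4 * m ^ 2 + m * (sz m κ r + m)

theorem sz_le {m κ : ℕ} (hm : 2 ≤ m) (r : ℕ) :
    sz m κ r + 5 * m ^ 2 ≤ m ^ r * (4 ^ κ + 5 * m ^ 2) := by
  induction r with
  | zero => simp [sz]
  | succ r ih =>
    change 4 * m ^ 2 + m * (sz m κ r + m) + 5 * m ^ 2 ≤ _
    have h1 : m * (sz m κ r + 5 * m ^ 2) ≤ m * (m ^ r * (4 ^ κ + 5 * m ^ 2)) :=
      Nat.mul_le_mul_left m ih
    have h2 : 10 * m ^ 2 ≤ m * (5 * m ^ 2) := by nlinarith [Nat.zero_le (m ^ 2)]
    calc 4 * m ^ 2 + m * (sz m κ r + m) + 5 * m ^ 2 = m * sz m κ r + 10 * m ^ 2 := by ring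
      _ ≤ m * sz m κ r + m * (5 * m ^ 2) := Nat.add_le_add_left h2 _
      _ = m * (sz m κ r + 5 * m ^ 2) := by ring
      _ ≤ _ := h1
      _ = _ := by rw [pow_succ]; ring

/-- the formula saying that `j` is the first one -/
theorem sel {V : Type} {m : ℕ} (v : Fin m → V) (j : Fin m) :
    ∃ φ : Fml V, φ.size ≤ m ∧ ∀ x, φ.eval x = true ↔ x (v j) = true ∧ ∀ i < j, x (v i) = false := by
  obtain ⟨φ, h1, h2⟩ := bigAnd (c := 1) (fun i : Fin m =>
    if i < j then Fml.neg (.var (v i)) else if i = j then .var (v i) else .const true) fun i => by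
      split_ifs
      · exact le_rfl
      · exact le_rfl
      · exact Nat.zero_le _
  rw [mul_one] at h1
  refine ⟨φ, h1, fun x => ?_⟩
  rw [h2]
  constructor
  · intro h
    refine ⟨?_, fun i hi => ?_⟩
    · have := h j
      rw [if_neg (lt_irrefl j), if_pos rfl] at this
      exact this
    · have := h i
      rw [if_pos hi] at this
      change (!x (v i)) = true at this
      simpa using this
  · rintro ⟨h3, h4⟩ i
    split_ifs with h5 h6
    · change (!x (v i)) = true
      rw [h4 i h5]; rfl
    · rw [h6]; exact h3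
    · rfl

/-- Parity of `X` is in level `2 r`. -/
theorem even_mem {m κ B : ℕ} (hm : 2 ≤ m) (hκ : B + 2 ≤ 2 ^ κ) (r : ℕ) :
    ∀ {n : ℕ} (X : Finset (Fin n)), X.card ≤ m ^ r * B + 2 →
      (fun x : Fin n → Bool => ∑ i ∈ X, bz (x i) = 0) ∈ Sig true (2 * r) m (sz m κ r) n := by
  induction r with
  | zero =>
    intro n X hX
    rw [pow_zero, one_mul] at hX
    obtain ⟨φ, h1, h2⟩ := par_fml κ X (hX.trans hκ)
    refine ⟨.neg φ, h1, fun x => ?_⟩
    change (∑ i ∈ X, bz (x i) = 0) ↔ (!φ.eval x) = true
    rw [h2]
    generalize ∑ i ∈ X, bz (x i) = z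
    revert z
    decide
  | succ r ih =>
    intro n X hX
    obtain ⟨Y, hY, hsum⟩ := partition m (m ^ r * B + 1) X (by
      refine hX.trans ?_
      calc m ^ (r + 1) * B + 2 ≤ m ^ (r + 1) * B + m := Nat.add_le_add_left hm _
        _ = _ := by rw [pow_succ]; ring)
    -- variables
    set vy : Fin m → Fin (n + m + m) := fun j => Fin.castAdd m (Fin.natAdd n j) with hvy
    set vz : Fin m → Fin (n + m + m) := fun j => Fin.natAdd (n + m) j with hvz
    set vx : Fin n → Fin (n + m + m) := fun i => Fin.castAdd m (Fin.castAdd m i) with hvx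
    have hvx_inj : Function.Injective vx := by
      intro i j h
      have := congrArg Fin.val h
      simp only [hvx, Fin.val_castAdd] at this
      exact Fin.ext this
    have hvy_inj : Function.Injective vy := by
      intro i j h
      have := congrArg Fin.val h
      simp only [hvy, Fin.val_castAdd, Fin.val_natAdd] at this
      exact Fin.ext (by omega)
    have hvxy : ∀ i j, vx i ≠ vy j := by
      intro i j h
      have := congrArg Fin.val h
      simp only [hvx, hvy, Fin.val_castAdd, Fin.val_natAdd] at this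
      omega
    -- the sub-blocks
    have hX' : ∀ j, (insert (vy j) ((Y j).image vx)).card ≤ m ^ r * B + 2 := by
      intro j
      refine (Finset.card_insert_le _ _).trans ?_
      rw [Finset.card_image_of_injective _ hvx_inj]
      have := hY j
      omega
    -- the check of the guess
    obtain ⟨β0, hβ0, hβ0'⟩ := par_fml (Nat.clog 2 m) (Finset.univ.image vy) (by
      rw [Finset.card_image_of_injective _ hvy_inj, Finset.card_univ, Fintype.card_fin]
      exact Nat.le_pow_clog (by norm_num) m)
    have hβ : (Fml.neg β0).size ≤ 4 * m ^ 2 := by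
      refine hβ0.trans ?_
      have h1 : 2 ^ Nat.clog 2 m ≤ 2 * m := by
        have hc : 0 < Nat.clog 2 m := Nat.clog_pos (by norm_num) hm
        have h2 := Nat.pow_pred_clog_lt_self (b := 2) (by norm_num) (x := m) (by omega)
        have h3 : 2 ^ Nat.clog 2 m = 2 * 2 ^ (Nat.clog 2 m).pred := by
          conv_lhs => rw [← Nat.succ_pred_eq_of_pos hc]
          rw [pow_succ]; ring
        omega
      calc 4 ^ Nat.clog 2 m = (2 ^ Nat.clog 2 m) ^ 2 := by
            rw [← pow_mul, mul_comm, pow_mul]; norm_num
        _ ≤ (2 * m) ^ 2 := Nat.pow_le_pow_left h1 2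
        _ = _ := by ring
    choose σ hσ hσ' using fun j => sel vz j
    have hmain := Sig.select (e := true) (K := 2 * r) (m := m) (s := sz m κ r) (.neg β0) hβ σ hσ
      (fun x i j hi hj => by
        rw [hσ'] at hi hj
        by_contra hne
        rcases lt_or_gt_of_ne hne with h | h
        · have := hj.2 i h
          rw [hi.1] at this
          exact absurd this (by decide)
        · have := hi.2 j h
          rw [hj.1] at this
          exact absurd this (by decide))
      (fun j w => ∑ i ∈ insert (vy j) ((Y j).image vx), bz (w i) = 0)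
      (fun j => ih _ (hX' j))
    refine ⟨_, ⟨_, hmain, fun w => Iff.rfl⟩, fun x => ?_⟩
    -- the equivalence
    have hax : ∀ (y z : Fin m → Bool) i, Fin.append (Fin.append x y) z (vx i) = x i := by
      intro y z i
      rw [hvx]
      beta_reduce
      rw [Fin.append_left, Fin.append_left]
    have hay : ∀ (y z : Fin m → Bool) j, Fin.append (Fin.append x y) z (vy j) = y j := by
      intro y z j
      rw [hvy]
      beta_reduce
      rw [Fin.append_left, Fin.append_right]
    have haz : ∀ (y z : Fin m → Bool) j, Fin.append (Fin.append x y) z (vz j) = z j := by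
      intro y z j
      rw [hvz]
      beta_reduce
      rw [Fin.append_right]
    have hb : ∀ (y z : Fin m → Bool), (Fml.neg β0).eval (Fin.append (Fin.append x y) z) = true ↔
        ∑ j, bz (y j) = 0 := by
      intro y z
      change (!β0.eval _) = true ↔ _
      rw [hβ0', Finset.sum_image fun a _ b _ h => hvy_inj h]
      simp only [hay]
      generalize ∑ j, bz (y j) = t
      revert t
      decide
    have hs : ∀ (y z : Fin m → Bool) j,
        ∑ i ∈ insert (vy j) ((Y j).image vx), bz (Fin.append (Fin.append x y) z i)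
          = bz (y j) + ∑ i ∈ Y j, bz (x i) := by
      intro y z j
      rw [Finset.sum_insert (by
        rw [Finset.mem_image]
        rintro ⟨i, _, h⟩
        exact hvxy i j h), hay, Finset.sum_image fun a _ b _ h => hvx_inj h]
      simp only [hax]
    simp only [hb, hs, hσ', haz]
    rw [hsum fun i => bz (x i)]
    constructor
    · intro h
      refine ⟨fun j => decide (∑ i ∈ Y j, bz (x i) = 1), fun z => ⟨?_, fun j _ => ?_⟩⟩
      · simp only [dec_bz]
        exact h
      · rw [dec_bz]
        generalize ∑ i ∈ Y j, bz (x i) = t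
        revert t
        decide
    · rintro ⟨y, h⟩
      have h1 : ∀ j, bz (y j) = ∑ i ∈ Y j, bz (x i) := by
        intro j
        have h2 := (h fun i => decide (i = j)).2 j ⟨by simp, fun i hi => by simp [ne_of_lt hi]⟩
        revert h2
        generalize ∑ i ∈ Y j, bz (x i) = t
        generalize bz (y j) = u
        revert t u
        decide
      rw [← (h fun _ => false).1]
      exact Finset.sum_congr rfl fun j _ => (h1 j).symm

end H599.PH
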