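import Pool.Agent.H599R2.PH.Low
import Pool.Agent.H599R2.PH.Up
import Pool.Agent.H599R2.QB.Thr

/-!
# The hierarchy is strict
-/

namespace H599.PH

open Finset H599.QB
open Pool.Agent.H564R2.QF (Fml)

theorem even_iff_chi {N : ℕ} (z : Fin N → Bool) :
    (∑ i ∈ (Finset.univ : Finset (Fin N)), bz (z i) = 0) ↔ chi Finset.univ z = 1 := by
  have h1 := chi_odd z
  unfold ones at h1
  rw [odd_iff_sum] at h1
  have hpm : chi Finset.univ z = 1 ∨ chi Finset.univ z = -1 := by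
    have h1 : chi Finset.univ z * chi Finset.univ z = 1 := by
      rw [chi_mul, symmDiff_self]; simp [chi]
    exact mul_self_eq_one_iff.1 h1
  have hz : ∀ t : ZMod 2, t = 0 ↔ ¬ t = 1 := by decide
  rw [hz, ← h1]
  rcases hpm with h | h
  · rw [h]; norm_num
  · rw [h]; norm_num

theorem strict (k m s n : ℕ) (c : ℕ → ℕ) (h0 : c 0 = 1) (hc : ∀ i, c i ≤ c (i + 1))
    (hA : 256 * 11041920 ^ 2 * (6 * c (7 * k + 8) * (k + 1)) ^ (4 * k + 4) ≤ m)
    (hs : m ^ (4 * k + 7) ≤ s) (hn : s * m ^ (4 * k + 5) ≤ n ^ 2)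
    (hcon : ∀ i < 7 * k + 8, Sig true (k + 1) (c i * m) (c i * s) n
      ⊆ Sig true k (c (i + 1) * m) (c (i + 1) * s) n) : False := by
  have hmono : Monotone c := monotone_nat_of_le_succ hc
  set γ := c (7 * k + 8) with hγ
  have hγ1 : 1 ≤ γ := by rw [← h0]; exact hmono (Nat.zero_le _)
  set cc := (6 * γ * (k + 1)) ^ (4 * k + 4) with hcc
  set P := m ^ (4 * k + 4) with hP
  have hck : 6 * γ * (k + 1) ≤ cc := by
    rw [hcc]
    exact Nat.le_self_pow (by omega) _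
  have hm1 : 256 * 11041920 ^ 2 * (6 * γ * (k + 1)) ≤ m :=
    le_trans (Nat.mul_le_mul_left _ hck) hA
  have hm2 : 2 * (7 * k + 8) * γ ≤ m := by
    refine le_trans ?_ hm1
    calc 2 * (7 * k + 8) * γ ≤ (100 * (6 * (k + 1))) * γ := Nat.mul_le_mul_right _ (by omega)
      _ = 100 * (6 * γ * (k + 1)) := by ring
      _ ≤ _ := Nat.mul_le_mul_right _ (by norm_num)
  have hm3 : 100 ≤ m := by
    refine le_trans ?_ hm1
    have h1 : 1 ≤ 6 * γ * (k + 1) := Nat.one_le_iff_ne_zero.2 (by positivity)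
    calc 100 ≤ 256 * 11041920 ^ 2 * 1 := by norm_num
      _ ≤ _ := Nat.mul_le_mul_left _ h1
  have hPpos : 0 < P := by rw [hP]; positivity
  have hs' : P * m ^ 3 ≤ s := by
    refine le_trans (le_of_eq ?_) hs
    rw [hP, ← pow_add]
  have hn' : s * (P * m) ≤ n ^ 2 := by
    refine le_trans (le_of_eq ?_) hn
    rw [hP, ← pow_succ]
  -- the block size
  obtain ⟨κ, hκ1, hκ2⟩ : ∃ κ, 4 ^ κ * (2 * P) ≤ s ∧ s < 4 ^ (κ + 1) * (2 * P) := by
    refine ⟨Nat.log 4 (s / (2 * P)), ?_, ?_⟩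
    · rw [← Nat.le_div_iff_mul_le (by omega)]
      refine Nat.pow_log_le_self 4 ?_
      have : 1 ≤ s / (2 * P) := by
        rw [Nat.le_div_iff_mul_le (by omega), one_mul]
        refine le_trans ?_ hs'
        rw [mul_comm 2 P]
        refine Nat.mul_le_mul_left P ?_
        nlinarith [Nat.zero_le (m ^ 2)]
      omega
    · rw [← Nat.div_lt_iff_lt_mul (by omega)]
      exact Nat.lt_pow_succ_log_self (by norm_num) _
  have hκ : 2 ≤ κ := by
    by_contra hcon2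
    have h1 : 4 ^ (κ + 1) ≤ 4 ^ 2 := Nat.pow_le_pow_right (by norm_num) (by omega)
    have h2 : s < 32 * P := by
      refine hκ2.trans_le ?_
      calc 4 ^ (κ + 1) * (2 * P) ≤ 4 ^ 2 * (2 * P) := Nat.mul_le_mul_right _ h1
        _ = 32 * P := by ring
    have h3 : 32 * P ≤ P * m ^ 3 := by
      rw [mul_comm]
      refine Nat.mul_le_mul_left P ?_
      calc 32 ≤ m := by omega
        _ ≤ m ^ 3 := Nat.le_self_pow (by norm_num) m
    omega
  have h4κ : 4 ≤ 2 ^ κ := by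
    calc 4 = 2 ^ 2 := by norm_num
      _ ≤ 2 ^ κ := Nat.pow_le_pow_right (by norm_num) hκ
  obtain ⟨B, hB⟩ : ∃ B, B + 2 = 2 ^ κ := ⟨2 ^ κ - 2, by omega⟩
  have hBsq : 4 ^ κ ≤ 4 * B ^ 2 := by
    have h1 : (4 : ℕ) ^ κ = (2 ^ κ) ^ 2 := by rw [← pow_mul, mul_comm, pow_mul]; norm_num
    rw [h1]
    calc (2 ^ κ) ^ 2 ≤ (2 * B) ^ 2 := Nat.pow_le_pow_left (by omega) 2
      _ = _ := by ring
  have hBsq2 : B ^ 2 ≤ 4 ^ κ := by
    have h1 : (4 : ℕ) ^ κ = (2 ^ κ) ^ 2 := by rw [← pow_mul, mul_comm, pow_mul]; norm_num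
    rw [h1]
    exact Nat.pow_le_pow_left (by omega) 2
  set N := P * B with hN
  have hN1 : s * P ≤ 32 * N ^ 2 := by
    calc s * P ≤ (4 ^ (κ + 1) * (2 * P)) * P := Nat.mul_le_mul_right _ hκ2.le
      _ = 8 * P ^ 2 * 4 ^ κ := by rw [pow_succ]; ring
      _ ≤ 8 * P ^ 2 * (4 * B ^ 2) := Nat.mul_le_mul_left _ hBsq
      _ = _ := by rw [hN]; ring
  have hN2 : 2 * N ≤ n := by
    have h1 : (2 * N) ^ 2 ≤ n ^ 2 := by
      refine le_trans ?_ hn'
      calc (2 * N) ^ 2 = 4 * P ^ 2 * B ^ 2 := by rw [hN]; ring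
        _ ≤ 4 * P ^ 2 * 4 ^ κ := Nat.mul_le_mul_left _ hBsq2
        _ = 2 * P * (4 ^ κ * (2 * P)) := by ring
        _ ≤ 2 * P * s := Nat.mul_le_mul_left _ hκ1
        _ = s * (P * 2) := by ring
        _ ≤ _ := Nat.mul_le_mul_left _ (Nat.mul_le_mul_left _ (by omega))
    exact (Nat.pow_le_pow_iff_left (by norm_num)).1 h1
  have hn3 : 2 * ((7 * k + 8) * (γ * m)) ≤ n := by
    have h1 : (2 * ((7 * k + 8) * (γ * m))) ^ 2 ≤ n ^ 2 := by
      refine le_trans ?_ hn'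
      calc (2 * ((7 * k + 8) * (γ * m))) ^ 2 = (2 * (7 * k + 8) * γ) ^ 2 * m ^ 2 := by ring
        _ ≤ m ^ 2 * m ^ 2 := Nat.mul_le_mul_right _ (Nat.pow_le_pow_left hm2 2)
        _ = (1 * m ^ 3) * (1 * m) := by ring
        _ ≤ (P * m ^ 3) * (P * m) := Nat.mul_le_mul (Nat.mul_le_mul_right _ hPpos)
            (Nat.mul_le_mul_right _ hPpos)
        _ ≤ _ := Nat.mul_le_mul_right _ hs'
    exact (Nat.pow_le_pow_iff_left (by norm_num)).1 h1
  -- membership in a high level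
  have hhigh : (fun x : Fin N → Bool => ∑ i ∈ (Finset.univ : Finset (Fin N)), bz (x i) = 0)
      ∈ Sig true (k + (7 * k + 8)) m s N := by
    have h1 := even_mem (m := m) (κ := κ) (B := B) (by omega) hB.le (4 * k + 4)
      (Finset.univ : Finset (Fin N)) (by
        rw [Finset.card_univ, Fintype.card_fin, ← hP]
        exact Nat.le_add_right _ 2)
    have h2 : 2 * (4 * k + 4) = k + (7 * k + 8) := by ring
    rw [h2] at h1
    refine Sig.mono_size ?_ h1
    have h3 := sz_le (m := m) (κ := κ) (by omega) (4 * k + 4)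
    rw [← hP] at h3
    have h4 : 10 * (P * m ^ 2) ≤ s := by
      refine le_trans ?_ hs'
      calc 10 * (P * m ^ 2) = P * (10 * m ^ 2) := by ring
        _ ≤ P * (m * m ^ 2) := Nat.mul_le_mul_left _ (Nat.mul_le_mul_right _ (by omega))
        _ = _ := by ring
    have h5 : 2 * (P * (4 ^ κ + 5 * m ^ 2)) = 4 ^ κ * (2 * P) + 10 * (P * m ^ 2) := by ring
    omega
  have hlow : (fun x : Fin N → Bool => ∑ i ∈ (Finset.univ : Finset (Fin N)), bz (x i) = 0)
      ∈ Sig true k (γ * m) (γ * s) N := by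
    refine collapse c hc (7 * k + 8) hcon true N (by rw [← hγ]; omega) ?_
    rw [h0, one_mul, one_mul]
    exact hhigh
  -- lower bound
  set T := Nat.sqrt (s / m) + 1 with hT
  have hmpos : 0 < m := by omega
  have hq : 1 ≤ s / m := by
    rw [Nat.le_div_iff_mul_le hmpos, one_mul]
    refine le_trans ?_ hs'
    calc m ≤ m ^ 3 := Nat.le_self_pow (by norm_num) m
      _ = 1 * m ^ 3 := (one_mul _).symm
      _ ≤ _ := Nat.mul_le_mul_right _ hPpos
  have hT1 : s ≤ m * T ^ 2 := by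
    have h1 : s / m < T * T := by rw [hT]; exact Nat.lt_succ_sqrt (s / m)
    have h2 := (Nat.div_lt_iff_lt_mul hmpos).1 h1
    calc s ≤ T * T * m := h2.le
      _ = _ := by ring
  have hT2 : m * T ^ 2 ≤ 4 * s := by
    have h1 : Nat.sqrt (s / m) * Nat.sqrt (s / m) ≤ s / m := Nat.sqrt_le (s / m)
    have h2 : 1 ≤ Nat.sqrt (s / m) := Nat.sqrt_pos.2 hq
    have h3 : T ^ 2 ≤ 4 * (s / m) := by
      calc T ^ 2 ≤ (2 * Nat.sqrt (s / m)) ^ 2 := Nat.pow_le_pow_left (by omega) 2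
        _ = 4 * (Nat.sqrt (s / m) * Nat.sqrt (s / m)) := by ring
        _ ≤ _ := Nat.mul_le_mul_left _ h1
    calc m * T ^ 2 ≤ m * (4 * (s / m)) := Nat.mul_le_mul_left _ h3
      _ = 4 * (m * (s / m)) := by ring
      _ ≤ 4 * s := Nat.mul_le_mul_left _ (Nat.mul_div_le s m)
  set D := (6 * (γ * m) * (k + 1)) ^ (k + 1) with hD
  have hDpos : 1 ≤ D := Nat.one_le_iff_ne_zero.2 (by rw [hD]; positivity)
  have hD4 : D ^ 4 = cc * P := by
    rw [hD, hcc, hP, ← pow_mul, ← mul_pow]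
    congr 1 <;> ring
  refine parity_not_mem (V := Fin N) (T := T) (D := D) hlow (τ := id) (fun v => coord_mem v)
    (fun z => even_iff_chi z) (Nat.mul_pos hγ1 hmpos) (by omega) ?_ hD.symm.le ?_
  · calc γ * s ≤ γ * (m * T ^ 2) := Nat.mul_le_mul_left _ hT1
      _ = γ * m * 1 * T ^ 2 := by ring
      _ ≤ γ * m * (k + 1) * T ^ 2 :=
          Nat.mul_le_mul_right _ (Nat.mul_le_mul_left _ (by omega))
  · rw [Fintype.card_fin]
    have h1 : (11041920 * (T * D ^ 2)) ^ 2 ≤ N ^ 2 := by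
      refine Nat.le_of_mul_le_mul_left ?_ (Nat.mul_pos (by norm_num : 0 < 64) hmpos)
      calc 64 * m * (11041920 * (T * D ^ 2)) ^ 2
          = 64 * 11041920 ^ 2 * (m * T ^ 2) * D ^ 4 := by ring
        _ ≤ 64 * 11041920 ^ 2 * (4 * s) * D ^ 4 :=
            Nat.mul_le_mul_right _ (Nat.mul_le_mul_left _ hT2)
        _ = (256 * 11041920 ^ 2 * cc) * (s * P) := by rw [hD4]; ring
        _ ≤ m * (32 * N ^ 2) := Nat.mul_le_mul hA hN1
        _ ≤ 64 * m * N ^ 2 := by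
            have : m * (32 * N ^ 2) = 32 * (m * N ^ 2) := by ring
            have h3 : 64 * m * N ^ 2 = 64 * (m * N ^ 2) := by ring
            omega
    have h2 := (Nat.pow_le_pow_iff_left (by norm_num)).1 h1
    refine le_trans ?_ h2
    have h3 : 8 * D ^ 2 + 1 ≤ 9 * D ^ 2 := by
      have : 1 ≤ D ^ 2 := Nat.one_le_pow 2 D hDpos
      omega
    calc 1226880 * T * (8 * D ^ 2 + 1) ≤ 1226880 * T * (9 * D ^ 2) := Nat.mul_le_mul_left _ h3
      _ = _ := by ring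

theorem const_mem_sig (e : Bool) (k m s n : ℕ) : (fun _ : Fin n → Bool => True) ∈ Sig e k m s n := by
  have h : (fun _ : Fin n → Bool => True) ∈ Sig e 0 m s n := by
    have : ∃ φ : Fml (Fin n), φ.size ≤ s ∧ ∀ x, True ↔ φ.eval x = true :=
      ⟨.const true, Nat.zero_le _, fun x => by simp [Fml.eval]⟩
    cases e <;> exact this
  induction k with
  | zero => exact h
  | succ k ih => exact Sig.succ ih

/-- a collapse of the families gives a uniform collapse -/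
theorem uniform {m s : ℕ → ℕ} {k : ℕ} (h : Level m s (k + 1) ⊆ Level m s k) (c : ℕ) :
    ∃ c' n₀ : ℕ, ∀ n ≥ n₀, Sig true (k + 1) (c * m n) (c * s n) n
      ⊆ Sig true k (c' * m n) (c' * s n) n := by
  classical
  by_contra hcon
  push Not at hcon
  have hbad : ∀ c' n₀ : ℕ, ∃ n ≥ n₀, ∃ g ∈ Sig true (k + 1) (c * m n) (c * s n) n,
      g ∉ Sig true k (c' * m n) (c' * s n) n := by
    intro c' n₀
    obtain ⟨n, hn, h1⟩ := hcon c' n₀
    obtain ⟨g, hg, hg'⟩ := Set.not_subset.1 h1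
    exact ⟨n, hn, g, hg, hg'⟩
  choose N hN G hG hG' using hbad
  -- an increasing sequence of bad lengths
  obtain ⟨a, ha0, ha⟩ : ∃ a : ℕ → ℕ, a 0 = N 0 0 ∧ ∀ i, a (i + 1) = N (i + 1) (a i + 1) :=
    ⟨fun i => Nat.rec (motive := fun _ => ℕ) (N 0 0) (fun i r => N (i + 1) (r + 1)) i, rfl,
      fun _ => rfl⟩
  have hlt : ∀ i, a i < a (i + 1) := by
    intro i
    rw [ha]
    exact hN (i + 1) (a i + 1)
  have hmono : StrictMono a := strictMono_nat_of_lt_succ hlt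
  have hg : ∀ i, ∃ g ∈ Sig true (k + 1) (c * m (a i)) (c * s (a i)) (a i),
      g ∉ Sig true k (i * m (a i)) (i * s (a i)) (a i) := by
    intro i
    cases i with
    | zero => rw [ha0]; exact ⟨G 0 0, hG 0 0, hG' 0 0⟩
    | succ i => rw [ha]; exact ⟨G (i + 1) (a i + 1), hG _ _, hG' _ _⟩
  choose g hg hg' using hg
  have hex : ∀ n, ∃ p : (Fin n → Bool) → Prop, (∀ i (h : a i = n), p = h ▸ g i) ∧
      ((∀ i, a i ≠ n) → p = fun _ => True) := by
    intro n
    by_cases hex : ∃ i, a i = n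
    · obtain ⟨i, rfl⟩ := hex
      refine ⟨g i, fun j hj => ?_, fun h => absurd rfl (h i)⟩
      have hji : j = i := hmono.injective hj
      subst hji
      rfl
    · exact ⟨fun _ => True, fun i h => absurd ⟨i, h⟩ hex, fun _ => rfl⟩
  choose f hf1 hf2 using hex
  have hfa : ∀ i, f (a i) = g i := fun i => hf1 (a i) i rfl
  have hf : f ∈ Level m s (k + 1) := by
    refine ⟨c, fun n => ?_⟩
    by_cases hex : ∃ i : ℕ, a i = n
    · obtain ⟨i, rfl⟩ := hex
      rw [hfa]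
      exact hg i
    · rw [hf2 n fun i h => hex ⟨i, h⟩]
      exact const_mem_sig _ _ _ _ _
  obtain ⟨c', hc'⟩ := h hf
  have := hc' (a c')
  rw [hfa] at this
  exact hg' c' this

/-- The hierarchy is strict. -/
theorem hierarchy {m s : ℕ → ℕ} (hm : Filter.Tendsto m Filter.atTop Filter.atTop)
    (hs : ∀ K : ℕ, ∀ᶠ n in Filter.atTop, m n ^ K ≤ s n)
    (hn : ∀ K : ℕ, ∀ᶠ n in Filter.atTop, s n * m n ^ K ≤ n ^ 2) (k : ℕ) :
    Level m s k ⊂ Level m s (k + 1) := by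
  classical
  refine ⟨fun f hf => ?_, fun hcon => ?_⟩
  · obtain ⟨c, hc⟩ := hf
    exact ⟨c, fun n => Sig.succ (hc n)⟩
  · choose H n₀ hH using uniform hcon
    obtain ⟨c, hc0, hcs⟩ : ∃ c : ℕ → ℕ, c 0 = 1 ∧ ∀ i, c (i + 1) = max (c i) (H (c i)) :=
      ⟨fun i => Nat.rec (motive := fun _ => ℕ) 1 (fun _ r => max r (H r)) i, rfl, fun _ => rfl⟩
    have e1 := hm.eventually_ge_atTop
      (256 * 11041920 ^ 2 * (6 * c (7 * k + 8) * (k + 1)) ^ (4 * k + 4))
    have e2 := hs (4 * k + 7)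
    have e3 := hn (4 * k + 5)
    have e4 := Filter.eventually_ge_atTop (∑ i ∈ Finset.range (7 * k + 8), n₀ (c i))
    obtain ⟨n, h1, h2, h3, h4⟩ := (e1.and (e2.and (e3.and e4))).exists
    refine strict k (m n) (s n) n c hc0 (fun i => by rw [hcs]; exact le_max_left _ _)
      h1 h2 h3 fun i hi => ?_
    have h5 : n₀ (c i) ≤ n := le_trans (Finset.single_le_sum (f := fun i => n₀ (c i))
      (fun _ _ => Nat.zero_le _) (Finset.mem_range.2 hi)) h4
    refine (hH (c i) n h5).trans ?_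
    intro f hf
    have h6 : H (c i) ≤ c (i + 1) := by rw [hcs]; exact le_max_right _ _
    exact Sig.mono_size (Nat.mul_le_mul_right _ h6)
      (Sig.mono_bits (Nat.mul_le_mul_right _ h6) hf)

end H599.PH
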